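import Pool.Agent.L0h35.BcRobClo

/-!
# Boolean combinations of economical two-head automata do not simulate one pushdown head
-/

namespace Pool.Agent.Results.MP_d0a708_lc.BooleanCombinations

open Pool.Agent.L0h32.HA Pool.Agent.L0h35.Bc

/-- **Boolean combinations of economical two-head automata.** There is a language `L` accepted by a
deterministic two-way one-head pushdown automaton such that:

* let `K ≥ 1` nondeterministic two-way two-head finite automata `M 0, …, M (K - 1)` with at most `s`
  states each, a function `h` of `K` truth values and a number `l` with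
  `2^10 K (⌊log₂ l⌋ + 1) ≤ l` be given. If the language `{w | h (w ∈ L(M i))_i}` differs from `L` on
  less than `7 ^ l` words of length `5 l`, then for some `i` there is a word `w ∈ L(M i)` of length
  `5 l` on which every accepting computation of `M i` has at least
  `l^2 / (2^20 K (⌊log₂ (K s)⌋ + 1))` different configurations (so at least that many steps) and at
  least `l / (2^20 K (⌊log₂ (K s)⌋ + 1)) - 1` head reversals;
* hence every language `L'` in the Boolean closure of the languages of nondeterministic two-head
  automata that accept every accepted word by some computation with `o(n^2)` steps, or with `o(n^2)`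
  different pairs of head positions, or with a head that visits `o(n)` cells, or with heads always
  at distance `o(n)`, or with `o(n)` head reversals, differs from `L` on at least `7 ^ l` words of
  length `5 l`, for all large `l`. -/
theorem result :
    ∃ L ∈ TwoDPDAHEADS 1 Sym,
      (∀ (K : ℕ) (M : Fin K → HeadAut 2 Sym) (h : (Fin K → Prop) → Prop) (l s : ℕ), 1 ≤ K →
        (∀ i, Fintype.card (M i).Q ≤ s) → 2 ^ 10 * K * (Nat.log 2 l + 1) ≤ l →
        differ L {w | h (fun i => w ∈ (M i).lang)} (5 * l) < 7 ^ l →
        ∃ i, ∃ w ∈ (M i).lang, w.length = 5 * l ∧ ∀ T c, (M i).IsAccRun w T c →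
          l ^ 2 ≤ 2 ^ 20 * K * (Nat.log 2 (K * s) + 1) * configs c T ∧
          l ≤ 2 ^ 20 * K * (Nat.log 2 (K * s) + 1) * (HeadAut.revs c T + 1)) ∧
      (∀ f g : ℕ → ℕ, (fun n => (f n : ℝ)) =o[Filter.atTop] (fun n : ℕ => (n : ℝ) ^ 2) →
        (fun n => (g n : ℝ)) =o[Filter.atTop] (fun n : ℕ => (n : ℝ)) →
        ∀ L' ∈ BoolClosure (Economical Sym f g),
          ∀ᶠ l : ℕ in Filter.atTop, 7 ^ l ≤ differ L L' (5 * l)) :=
  ⟨P.lang, ⟨P, P_det, rfl⟩, rob_configs, ev_economical⟩

end Pool.Agent.Results.MP_d0a708_lc.BooleanCombinations
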