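import Pool.Agent.L0h35.BcRobClo

/-!
# Boolean combinations of two-head automata with a lazy head do not simulate one pushdown head
-/

namespace Pool.Agent.Results.MP_d0a708_lc.LazyCombinations

open Pool.Agent.L0h32.HA Pool.Agent.L0h35.Bc

/-- **Boolean combinations of two-head automata with a lazy head.** There is a language `L`
accepted by a deterministic two-way one-head pushdown automaton such that:

* let `K ≥ 1` nondeterministic two-way two-head finite automata `M 0, …, M (K - 1)` with at most `s`
  states each, a function `h` of `K` truth values and a number `l` with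
  `2^10 K (⌊log₂ l⌋ + 1) ≤ l` be given. If the language `{w | h (w ∈ L(M i))_i}` differs from `L` on
  less than `7 ^ l` words of length `5 l`, then for some `i` there is a word `w ∈ L(M i)` of length
  `5 l` such that in every accepting computation of `M i` on `w` **each** of the two heads makes at
  least `l ⌊log₂ l⌋ / (2^20 K (⌊log₂ (K s)⌋ + 1)) - l` moves and at least
  `⌊log₂ l⌋ / (2^23 K (⌊log₂ (K s)⌋ + 1)) - 1` reversals, whatever the other head does;
* hence every language `L'` in the Boolean closure of the languages of nondeterministic two-head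
  automata that accept every accepted word by some computation in which one of the heads makes
  `o(n log n)` moves or `o(log n)` reversals (the other head being unrestricted) differs from `L` on
  at least `7 ^ l` words of length `5 l`, for all large `l`;
* in particular this holds for the Boolean combinations `L'` of languages of nondeterministic
  two-head automata one of whose heads is one-way. -/
theorem result :
    ∃ L ∈ TwoDPDAHEADS 1 Sym,
      (∀ (K : ℕ) (M : Fin K → HeadAut 2 Sym) (h : (Fin K → Prop) → Prop) (l s : ℕ), 1 ≤ K →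
        (∀ i, Fintype.card (M i).Q ≤ s) → 2 ^ 10 * K * (Nat.log 2 l + 1) ≤ l →
        differ L {w | h (fun i => w ∈ (M i).lang)} (5 * l) < 7 ^ l →
        ∃ i, ∃ w ∈ (M i).lang, w.length = 5 * l ∧ ∀ T c, (M i).IsAccRun w T c → ∀ j : Fin 2,
          l * Nat.log 2 l ≤ 2 ^ 20 * K * (Nat.log 2 (K * s) + 1) * (HeadAut.moves c j T + l) ∧
          Nat.log 2 l ≤ 2 ^ 23 * K * (Nat.log 2 (K * s) + 1) * (revsOf c j T + 1)) ∧
      (∀ f q : ℕ → ℕ,
        (fun n => (f n : ℝ)) =o[Filter.atTop] (fun n : ℕ => (n : ℝ) * Real.log n) →
        (fun n => (q n : ℝ)) =o[Filter.atTop] (fun n : ℕ => Real.log n) →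
        ∀ L' ∈ BoolClosure (LazyTwoHeads Sym f q),
          ∀ᶠ l : ℕ in Filter.atTop, 7 ^ l ≤ differ L L' (5 * l)) ∧
      ∀ L' ∈ BoolClosure (OneWayHead Sym),
        ∀ᶠ l : ℕ in Filter.atTop, 7 ^ l ≤ differ L L' (5 * l) :=
  ⟨P.lang, ⟨P, P_det, rfl⟩, rob_lazy, ev_lazy, ev_oneway⟩

end Pool.Agent.Results.MP_d0a708_lc.LazyCombinations
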