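import Pool.Agent.L0h80.AW.Upper

/-!
# Two heads which know their positions: quadratically many pairs of positions are necessary and sufficient

There is a language `L` accepted by a deterministic two-way one-head pushdown automaton with the following property.
Consider nondeterministic two-way two-head automata whose transition relation may depend in an arbitrary way on the
length of the input and on the positions of both heads (ordinary two-head automata are the special case without this
dependence). On almost all words of `L` from a certain family every accepting computation of such an automaton has to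
visit `c n ^ 2` of the `(n + 2) ^ 2` pairs of head positions: the heads must have the distance `c n` at some time, each
head must visit `c n` different cells, and there are `c n` reversals. The automaton may accept an arbitrary part of
`L`, even with an exponentially small proportion of errors: still it accepts only an exponentially small part of the
family with fewer pairs of positions. On the other hand a deterministic automaton of this kind with eight states
decides the language on the family, and it accepts in `18 l ^ 2` steps. So for heads which know their positions the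
bound is sharp, and a proof of the assertion of the problem for `L` has to use that the heads do not know their
positions.

The language is that of the words `x a^l y b^l z` with `∑ x_t y_t z_t` odd. The certificates, discrepancy bounds
and the pushdown automaton are those of `Pool/Agent/L0h32/HA`; a certificate is the set of the configurations at
the crossings of two lines, so that a computation without repeated configurations with few different
configurations has a small certificate, and a cylinder intersection contains hardly more words of `L` than words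
outside `L`.
-/

set_option autoImplicit false

open Filter Asymptotics

namespace Pool.Agent.Results.MP_d0a708_lc.PositionPairs

open Pool.Agent.L0h32.HA Pool.Agent.L0h80.AW
open Pool.Agent.L0h80.HP (many card_fam)

/-- The words `x a^l y b^l z` with `x`, `y`, `z` of length `l`. -/
def family (l : ℕ) : Set (List Sym) := {w | ∃ x y z : Fin l → Bool, w = W x y z}

/-- An ordinary two-head automaton, as an automaton whose heads know their positions but do not use it. -/
def ofHead (M : HeadAut 2 Sym) : Aware where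
  Q := M.Q
  finQ := M.finQ
  start := M.start
  acc := M.acc
  δ _ _ := M.δ

section Resources

variable {M : Aware}

/-- The number of different configurations among `c 0, ..., c T`. -/
noncomputable def configs (c : ℕ → M.Cfg) (T : ℕ) : ℕ := {v : M.Cfg | ∃ t ≤ T, c t = v}.ncard

/-- The number of different pairs of head positions in `c 0, ..., c T`. -/
noncomputable def pairs (c : ℕ → M.Cfg) (T : ℕ) : ℕ := {p : Fin 2 → ℕ | ∃ t ≤ T, (c t).2 = p}.ncard

/-- The number of different cells visited by head `i` in `c 0, ..., c T`. -/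
noncomputable def cells (c : ℕ → M.Cfg) (T : ℕ) (i : Fin 2) : ℕ := {p : ℕ | ∃ t ≤ T, (c t).2 i = p}.ncard

/-- In `c 0, ..., c T` the two heads always have at most the distance `d`. -/
def Near (c : ℕ → M.Cfg) (T d : ℕ) : Prop := ∀ t ≤ T, ∀ i j : Fin 2, (c t).2 i ≤ (c t).2 j + d

end Resources

/-- The constant `K = 2 ^ 20 (⌊log₂ s⌋ + 1)` for an automaton with `s` states. -/
def const (M : Aware) : ℕ := 2 ^ 20 * (Nat.log 2 (Fintype.card M.Q) + 1)

/-- `M` has an accepting computation on `w` (a word of length `5 l`) with few different configurations, few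
different pairs of head positions, few cells visited by one of the heads, heads which are always near to
each other, or few reversals. -/
def Cheap (M : Aware) (l : ℕ) (w : List Sym) : Prop :=
  ∃ T c, M.IsAccRun w T c ∧
    (const M * configs c T < l ^ 2 ∨
      const M * Fintype.card M.Q * pairs c T < l ^ 2 ∨
      (∃ i, 8 * const M * Fintype.card M.Q * cells c T i < l) ∨
      (∃ d, Near c T d ∧ 16 * const M * Fintype.card M.Q * (d + 1) < l) ∨
      const M * (Aware.revs c T + 1) < l)

/-- `M` has an accepting computation on `w` with at most `f |w|` steps, or with at most `f |w|` different pairs of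
head positions, or with a head which visits at most `g |w|` cells, or with heads always at distance at most
`g |w|`, or with at most `g |w|` reversals. -/
def Economical (M : Aware) (f g : ℕ → ℕ) (w : List Sym) : Prop :=
  ∃ T c, M.IsAccRun w T c ∧
    (T ≤ f w.length ∨ pairs c T ≤ f w.length ∨ (∃ i, cells c T i ≤ g w.length) ∨
      Near c T (g w.length) ∨ Aware.revs c T ≤ g w.length)

section Proofs

variable {M : Aware}

lemma vis_eq (c : ℕ → M.Cfg) (T : ℕ) : configs c T = (vis c T).card := by
  classical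
  unfold configs
  rw [← Set.ncard_coe_finset]
  congr 1
  ext v
  simp only [Set.mem_ofPred_eq, vis, Finset.coe_image, Set.mem_image, Finset.mem_coe, Finset.mem_range]
  constructor
  · rintro ⟨t, ht, h⟩
    exact ⟨t, by omega, h⟩
  · rintro ⟨t, ht, h⟩
    exact ⟨t, by omega, h⟩

lemma fin_set {β : Type*} (u : ℕ → β) (T : ℕ) : {v : β | ∃ t ≤ T, u t = v}.Finite := by
  have : {v : β | ∃ t ≤ T, u t = v} = u '' (Set.Iic T) := by
    ext v
    simp [Set.mem_image]
  rw [this]
  exact (Set.finite_Iic T).image u

lemma configs_le_time (c : ℕ → M.Cfg) (T : ℕ) : configs c T ≤ T + 1 := by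
  classical
  rw [vis_eq]
  exact Finset.card_image_le.trans (by simp)

lemma configs_le_pairs (c : ℕ → M.Cfg) (T : ℕ) : configs c T ≤ Fintype.card M.Q * pairs c T := by
  classical
  unfold configs pairs
  have h1 : {v : M.Cfg | ∃ t ≤ T, c t = v} ⊆
      (Set.univ : Set M.Q) ×ˢ {p : Fin 2 → ℕ | ∃ t ≤ T, (c t).2 = p} := by
    rintro v ⟨t, ht, rfl⟩
    exact ⟨Set.mem_univ _, t, ht, rfl⟩
  refine (Set.ncard_le_ncard h1 (Set.finite_univ.prod (fin_set (fun t => (c t).2) T))).trans ?_
  rw [Set.ncard_prod, Set.ncard_univ, Nat.card_eq_fintype_card]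

lemma pairs_le (c : ℕ → M.Cfg) (T : ℕ) (S : Finset (ℕ × ℕ))
    (h : ∀ t ≤ T, ((c t).2 0, (c t).2 1) ∈ S) : pairs c T ≤ S.card := by
  classical
  unfold pairs
  rw [← Set.ncard_coe_finset]
  refine Set.ncard_le_ncard_of_injOn (fun p : Fin 2 → ℕ => (p 0, p 1)) ?_ ?_ (Finset.finite_toSet S)
  · rintro p ⟨t, ht, rfl⟩
    exact Finset.mem_coe.2 (h t ht)
  · intro p _ q _ he
    have h0 : p 0 = q 0 := congrArg Prod.fst he
    have h1 : p 1 = q 1 := congrArg Prod.snd he
    funext i
    fin_cases i
    · exact h0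
    · exact h1

lemma pos_le {w : List Sym} {T : ℕ} {c : ℕ → M.Cfg} (hc : M.IsAccRun w T c) :
    ∀ t ≤ T, ∀ i, (c t).2 i ≤ w.length + 1 := by
  intro t ht i
  cases t with
  | zero => rw [hc.1]; simp [Aware.init]
  | succ t => exact (step_pos M (hc.2.1 t (by omega)) i).2.2

lemma pairs_le_cells {w : List Sym} {T : ℕ} {c : ℕ → M.Cfg} (hc : M.IsAccRun w T c) (i : Fin 2) :
    pairs c T ≤ cells c T i * (w.length + 2) := by
  classical
  have hf : {p : ℕ | ∃ t ≤ T, (c t).2 i = p}.Finite := fin_set (fun t => (c t).2 i) T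
  have hcard : cells c T i = hf.toFinset.card := by
    unfold cells
    rw [← Set.ncard_coe_finset, Set.Finite.coe_toFinset]
  rw [hcard]
  have hp := pos_le hc
  fin_cases i
  · refine (pairs_le c T (hf.toFinset ×ˢ Finset.range (w.length + 2)) ?_).trans ?_
    · intro t ht
      rw [Finset.mem_product]
      refine ⟨hf.mem_toFinset.2 ⟨t, ht, rfl⟩, Finset.mem_range.2 ?_⟩
      have := hp t ht 1
      omega
    · rw [Finset.card_product, Finset.card_range]
  · refine (pairs_le c T (Finset.range (w.length + 2) ×ˢ hf.toFinset) ?_).trans ?_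
    · intro t ht
      rw [Finset.mem_product]
      refine ⟨Finset.mem_range.2 ?_, hf.mem_toFinset.2 ⟨t, ht, rfl⟩⟩
      have := hp t ht 0
      show (c t).2 0 < w.length + 2
      omega
    · rw [Finset.card_product, Finset.card_range, mul_comm]

lemma pairs_le_near {w : List Sym} {T d : ℕ} {c : ℕ → M.Cfg} (hc : M.IsAccRun w T c)
    (hd : Near c T d) : pairs c T ≤ (w.length + 2) * (2 * d + 1) := by
  classical
  have hp := pos_le hc
  refine (pairs_le c T ((Finset.range (w.length + 2)).biUnion
    (fun p => (Finset.Icc (p - d) (p + d)).image (fun q => (p, q)))) ?_).trans ?_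
  · intro t ht
    rw [Finset.mem_biUnion]
    have h0 := hp t ht 0
    have h1 := hd t ht 0 1
    have h2 := hd t ht 1 0
    refine ⟨(c t).2 0, Finset.mem_range.2 (by omega), Finset.mem_image.2 ⟨(c t).2 1, ?_, rfl⟩⟩
    rw [Finset.mem_Icc]
    omega
  · refine (Finset.card_biUnion_le_card_mul _ _ (2 * d + 1) fun p _ => ?_).trans ?_
    · refine Finset.card_image_le.trans ?_
      rw [Nat.card_Icc]
      omega
    · rw [Finset.card_range]

lemma thrifty_of_cheap {l : ℕ} (hl : 1 ≤ l) {w : List Sym} (hw : w.length = 5 * l)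
    (h : Cheap M l w) : Thrifty M l w := by
  obtain ⟨T, c, hc, h⟩ := h
  have key : ∀ m, Fintype.card M.Q * pairs c T ≤ m → const M * m < l ^ 2 → Thrifty M l w := by
    intro m hm hlt
    refine ⟨T, c, hc, Or.inl ?_⟩
    rw [← vis_eq]
    exact lt_of_le_of_lt (Nat.mul_le_mul_left _ ((configs_le_pairs c T).trans hm)) hlt
  rcases h with h | h | ⟨i, h⟩ | ⟨d, hd, h⟩ | h
  · exact ⟨T, c, hc, Or.inl (by rw [← vis_eq]; exact h)⟩
  · exact key _ le_rfl (by rw [← mul_assoc]; exact h)
  · refine key _ (Nat.mul_le_mul_left _ (pairs_le_cells hc i)) ?_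
    rw [hw]
    have h1 : (5 * l + 2) ≤ 8 * l := by omega
    calc const M * (Fintype.card M.Q * (cells c T i * (5 * l + 2)))
        ≤ const M * (Fintype.card M.Q * (cells c T i * (8 * l))) :=
          Nat.mul_le_mul_left _ (Nat.mul_le_mul_left _ (Nat.mul_le_mul_left _ h1))
      _ = (8 * const M * Fintype.card M.Q * cells c T i) * l := by ring
      _ < l * l := Nat.mul_lt_mul_of_pos_right h hl
      _ = l ^ 2 := by ring
  · refine key _ (Nat.mul_le_mul_left _ (pairs_le_near hc hd)) ?_
    rw [hw]
    have h1 : (5 * l + 2) * (2 * d + 1) ≤ (8 * l) * (2 * (d + 1)) :=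
      Nat.mul_le_mul (by omega) (by omega)
    calc const M * (Fintype.card M.Q * ((5 * l + 2) * (2 * d + 1)))
        ≤ const M * (Fintype.card M.Q * ((8 * l) * (2 * (d + 1)))) :=
          Nat.mul_le_mul_left _ (Nat.mul_le_mul_left _ h1)
      _ = (16 * const M * Fintype.card M.Q * (d + 1)) * l := by ring
      _ < l * l := Nat.mul_lt_mul_of_pos_right h hl
      _ = l ^ 2 := by ring
  · exact ⟨T, c, hc, Or.inr h⟩

lemma sg_eq {l : ℕ} (x y z : Fin l → Bool) :
    sg x y z = -1 ↔ Odd (Finset.univ.filter (fun t => x t = true ∧ y t = true ∧ z t = true)).card := by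
  have h : sg x y z =
      (-1) ^ (Finset.univ.filter (fun t => x t = true ∧ y t = true ∧ z t = true)).card := by
    unfold sg
    rw [← Finset.prod_const, Finset.prod_filter]
    refine Finset.prod_congr rfl fun t _ => ?_
    unfold sb
    cases x t <;> cases y t <;> cases z t <;> simp
  rw [h]
  constructor
  · intro h1
    by_contra hne
    rw [Nat.not_odd_iff_even] at hne
    rw [hne.neg_one_pow] at h1
    norm_num at h1
  · intro h1
    exact h1.neg_one_pow

lemma cheap_of_economical (M : Aware) (f g : ℕ → ℕ)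
    (hf : (fun n => (f n : ℝ)) =o[atTop] (fun n : ℕ => (n : ℝ) ^ 2))
    (hg : (fun n => (g n : ℝ)) =o[atTop] (fun n : ℕ => (n : ℝ))) :
    ∀ᶠ l : ℕ in atTop, ∀ w : List Sym, w.length = 5 * l → Economical M f g w → Cheap M l w := by
  obtain ⟨C, hC⟩ : ∃ C : ℕ, C = const M * Fintype.card M.Q + const M := ⟨_, rfl⟩
  have hCpos : 0 < C := by
    rw [hC]
    have : 0 < const M := by unfold const; positivity
    omega
  have hCr : (0 : ℝ) < C := by exact_mod_cast hCpos
  have ht : Tendsto (fun l : ℕ => 5 * l) atTop atTop :=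
    tendsto_id.const_mul_atTop' (by norm_num)
  have e1 := ht.eventually (hf.def (c := 1 / (100 * (C : ℝ))) (by positivity))
  have e2 := ht.eventually (hg.def (c := 1 / (200 * (C : ℝ))) (by positivity))
  filter_upwards [e1, e2, eventually_ge_atTop (64 * C + 1)] with l h1 h2 h3 w hw hE
  have hlr : (64 * (C : ℝ)) + 1 ≤ l := by exact_mod_cast h3
  rw [Real.norm_of_nonneg (by positivity), Real.norm_of_nonneg (by positivity)] at h1 h2
  push_cast at h1 h2
  have hl0 : (0 : ℝ) < l := by linarith
  -- C (f + 1) < l ^ 2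
  have hF : C * (f (5 * l) + 1) < l ^ 2 := by
    have : (C : ℝ) * (f (5 * l) + 1) < (l : ℝ) ^ 2 := by
      have h4 : (C : ℝ) * f (5 * l) ≤ (l : ℝ) ^ 2 / 4 := by
        calc (C : ℝ) * f (5 * l) ≤ C * (1 / (100 * (C : ℝ)) * (5 * (l : ℝ)) ^ 2) :=
              mul_le_mul_of_nonneg_left h1 hCr.le
          _ = (l : ℝ) ^ 2 / 4 := by field_simp; ring
      nlinarith
    exact_mod_cast this
  -- 16 C (g + 1) < l
  have hG : 16 * C * (g (5 * l) + 1) < l := by
    have : 16 * (C : ℝ) * (g (5 * l) + 1) < l := by
      have h4 : (C : ℝ) * g (5 * l) ≤ (l : ℝ) / 40 := by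
        calc (C : ℝ) * g (5 * l) ≤ C * (1 / (200 * (C : ℝ)) * (5 * (l : ℝ))) :=
              mul_le_mul_of_nonneg_left h2 hCr.le
          _ = (l : ℝ) / 40 := by field_simp; ring
      nlinarith
    exact_mod_cast this
  have hCK : const M ≤ C := by omega
  have hCs : const M * Fintype.card M.Q ≤ C := by omega
  obtain ⟨T, c, hc, hE⟩ := hE
  rw [hw] at hE
  refine ⟨T, c, hc, ?_⟩
  rcases hE with h | h | ⟨i, h⟩ | h | h
  · left
    refine lt_of_le_of_lt ?_ hF
    exact Nat.mul_le_mul hCK ((configs_le_time c T).trans (by omega))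
  · right; left
    refine lt_of_le_of_lt ?_ hF
    exact Nat.mul_le_mul hCs (by omega)
  · right; right; left
    refine ⟨i, lt_of_le_of_lt ?_ hG⟩
    calc 8 * const M * Fintype.card M.Q * cells c T i
        = 8 * (const M * Fintype.card M.Q) * cells c T i := by ring
      _ ≤ 16 * C * (g (5 * l) + 1) :=
          Nat.mul_le_mul (Nat.mul_le_mul (by norm_num) hCs) (by omega)
  · right; right; right; left
    refine ⟨g (5 * l), h, lt_of_le_of_lt ?_ hG⟩
    calc 16 * const M * Fintype.card M.Q * (g (5 * l) + 1)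
        = 16 * (const M * Fintype.card M.Q) * (g (5 * l) + 1) := by ring
      _ ≤ 16 * C * (g (5 * l) + 1) :=
          Nat.mul_le_mul_right _ (Nat.mul_le_mul_left _ hCs)
  · right; right; right; right
    refine lt_of_le_of_lt ?_ hG
    refine Nat.mul_le_mul ?_ (by omega)
    omega

lemma fam_finite (l : ℕ) : (family l).Finite := by
  have : family l = Set.range
      (fun a : (Fin l → Bool) × (Fin l → Bool) × (Fin l → Bool) => W a.1 a.2.1 a.2.2) := by
    ext w
    constructor
    · rintro ⟨x, y, z, rfl⟩
      exact ⟨(x, y, z), rfl⟩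
    · rintro ⟨⟨x, y, z⟩, rfl⟩
      exact ⟨x, y, z, rfl⟩
  rw [this]
  exact Set.finite_range _

lemma main_bound (M : Aware) (l : ℕ) (hl : 1 ≤ l)
    (hM : ({w | w ∈ family l ∧ w ∈ M.lang ∧ w ∉ P.lang}.ncard : ℝ) ≤
      2 ^ (-(l : ℝ) / 9) * 8 ^ l) :
    ({w | w ∈ family l ∧ w ∈ P.lang ∧ Cheap M l w}.ncard : ℝ) ≤
      2 ^ (-(l : ℝ) / 80) * ({w | w ∈ family l ∧ w ∈ P.lang}.ncard : ℝ) := by
  refine le_trans ?_ (average M hl hM)
  rw [Nat.cast_le]
  refine Set.ncard_le_ncard ?_ ((fam_finite l).subset fun w hw => hw.1)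
  rintro w ⟨h1, h2, h3⟩
  refine ⟨h1, h2, thrifty_of_cheap hl ?_ h3⟩
  obtain ⟨x, y, z, rfl⟩ := h1
  exact W_length x y z

lemma economical_bound (M : Aware) (f g : ℕ → ℕ)
    (hf : (fun n => (f n : ℝ)) =o[atTop] (fun n : ℕ => (n : ℝ) ^ 2))
    (hg : (fun n => (g n : ℝ)) =o[atTop] (fun n : ℕ => (n : ℝ))) :
    ∀ᶠ l : ℕ in atTop,
      ({w | w ∈ family l ∧ w ∈ M.lang ∧ w ∉ P.lang}.ncard : ℝ) ≤ 2 ^ (-(l : ℝ) / 9) * 8 ^ l →
      ({w | w ∈ family l ∧ w ∈ P.lang ∧ Economical M f g w}.ncard : ℝ) ≤
        2 ^ (-(l : ℝ) / 80) * ({w | w ∈ family l ∧ w ∈ P.lang}.ncard : ℝ) := by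
  filter_upwards [cheap_of_economical M f g hf hg, eventually_ge_atTop 1] with l h1 h2 hM
  refine le_trans ?_ (main_bound M l h2 hM)
  rw [Nat.cast_le]
  refine Set.ncard_le_ncard ?_ ((fam_finite l).subset fun w hw => hw.1)
  rintro w ⟨h3, h4, h5⟩
  refine ⟨h3, h4, h1 w ?_ h5⟩
  obtain ⟨x, y, z, rfl⟩ := h3
  exact W_length x y z

/-- A sound automaton fails on some word. -/
lemma exists_of_lt (l : ℕ) (hl : 1 ≤ l) (Q : List Sym → Prop)
    (h : ({w | w ∈ family l ∧ w ∈ P.lang ∧ Q w}.ncard : ℝ) ≤
        2 ^ (-(l : ℝ) / 80) * ({w | w ∈ family l ∧ w ∈ P.lang}.ncard : ℝ)) :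
    ∃ w ∈ P.lang, w ∈ family l ∧ ¬ Q w := by
  by_contra hcon
  push Not at hcon
  have h1 : {w | w ∈ family l ∧ w ∈ P.lang ∧ Q w} = {w | w ∈ family l ∧ w ∈ P.lang} := by
    ext w
    constructor
    · rintro ⟨a, b, -⟩
      exact ⟨a, b⟩
    · rintro ⟨a, b⟩
      exact ⟨a, b, hcon w b a⟩
  rw [h1] at h
  have h2 := many (l := l) hl
  have h3 : (0 : ℝ) < ({w | w ∈ family l ∧ w ∈ P.lang}.ncard : ℝ) := by
    have : 0 < 8 * {w | w ∈ family l ∧ w ∈ P.lang}.ncard := lt_of_lt_of_le (by positivity) h2
    have h4 : 0 < {w | w ∈ family l ∧ w ∈ P.lang}.ncard := by omega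
    exact_mod_cast h4
  have h4 : (2 : ℝ) ^ (-(l : ℝ) / 80) < 1 := by
    apply Real.rpow_lt_one_of_one_lt_of_neg (by norm_num)
    have : (1 : ℝ) ≤ l := by exact_mod_cast hl
    linarith
  nlinarith

end Proofs


/-- **Two heads which know their positions.** There is a language `L` accepted by a deterministic two-way one-head
pushdown automaton, such that for every `l ≥ 1` the word `x a^l y b^l z` is in `L` if and only if `∑ x_t y_t z_t` is
odd (the family of these `8 ^ l` words of length `5 l` has at least `8 ^ l / 8` members in `L`), and: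

* (lower bound) for every two-head automaton `M` whose heads know their positions and which accepts at most
  `2 ^ (-l / 9) 8 ^ l` words of the family outside `L`, the proportion of the words `w` of `L` in the family for which
  `M` has a cheap accepting computation is at most `2 ^ (-l / 80)`. So for the other words every accepting
  computation of `M`, if there is one, has at least `l ^ 2 / K` different configurations, `l ^ 2 / (K s)` different
  pairs of head positions, each head visits at least `l / (8 K s)` cells, the distance `d` of the heads satisfies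
  `16 K s (d + 1) ≥ l` at some time, and there are at least `l / K - 1` reversals, where `s` is the number of states
  and `K = 2 ^ 20 (⌊log₂ s⌋ + 1)`; if `M` decides `L` on the family, some word of `L` in the family has no cheap
  accepting computation;
* (asymptotic form) for each fixed `M` and `f = o(n ^ 2)`, `g = o(n)`, for all large `l` with at most
  `2 ^ (-l / 9) 8 ^ l` errors, `M` has economical computations for at most a proportion `2 ^ (-l / 80)` of the words of
  `L` in the family;
* ordinary two-head automata have the same computations as the automata `ofHead M`, so that no two-head automaton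
  with the language `L` is economical on all words of `L`;
* (upper bound) a deterministic automaton with eight states whose heads know their positions decides `L` on the
  family for all `l ≥ 1`, and accepts within `18 l ^ 2` steps. -/
theorem result :
    ∃ L ∈ TwoDPDAHEADS 1 Sym,
      (∀ l : ℕ, 1 ≤ l → (family l).ncard = 8 ^ l ∧ 8 ^ l ≤ 8 * {w | w ∈ family l ∧ w ∈ L}.ncard ∧
        (∀ w ∈ family l, w.length = 5 * l) ∧
        ∀ x y z : Fin l → Bool, W x y z ∈ L ↔
          Odd (Finset.univ.filter (fun t => x t = true ∧ y t = true ∧ z t = true)).card) ∧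
      (∀ (M : Aware) (l : ℕ), 1 ≤ l →
        (({w | w ∈ family l ∧ w ∈ M.lang ∧ w ∉ L}.ncard : ℝ) ≤ 2 ^ (-(l : ℝ) / 9) * 8 ^ l →
          ({w | w ∈ family l ∧ w ∈ L ∧ Cheap M l w}.ncard : ℝ) ≤
            2 ^ (-(l : ℝ) / 80) * ({w | w ∈ family l ∧ w ∈ L}.ncard : ℝ)) ∧
        ((∀ w ∈ family l, w ∈ M.lang ↔ w ∈ L) → ∃ w ∈ L, w ∈ family l ∧ ¬ Cheap M l w)) ∧
      (∀ f g : ℕ → ℕ, (fun n => (f n : ℝ)) =o[atTop] (fun n : ℕ => (n : ℝ) ^ 2) →
        (fun n => (g n : ℝ)) =o[atTop] (fun n : ℕ => (n : ℝ)) →
        (∀ M : Aware, ∀ᶠ l : ℕ in atTop,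
          ({w | w ∈ family l ∧ w ∈ M.lang ∧ w ∉ L}.ncard : ℝ) ≤ 2 ^ (-(l : ℝ) / 9) * 8 ^ l →
          ({w | w ∈ family l ∧ w ∈ L ∧ Economical M f g w}.ncard : ℝ) ≤
            2 ^ (-(l : ℝ) / 80) * ({w | w ∈ family l ∧ w ∈ L}.ncard : ℝ)) ∧
        ∀ M : HeadAut 2 Sym, M.lang = L → ∀ᶠ l : ℕ in atTop,
          ∃ w ∈ L, w.length = 5 * l ∧ ¬ Economical (ofHead M) f g w) ∧
      (∀ (M : HeadAut 2 Sym) (w : List Sym) (T : ℕ) (c : ℕ → M.Q × (Fin 2 → ℕ)),
        (ofHead M).IsAccRun w T c ↔ M.IsAccRun w T c) ∧
      ∃ U : Aware, U.Deterministic ∧ Fintype.card U.Q = 8 ∧ ∀ l : ℕ, 1 ≤ l → ∀ w ∈ family l,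
        (w ∈ U.lang ↔ w ∈ L) ∧ (w ∈ L → ∃ T c, U.IsAccRun w T c ∧ T ≤ 18 * l ^ 2) := by
  have herr : ∀ (M : Aware) (l : ℕ), (∀ w ∈ family l, w ∈ M.lang ↔ w ∈ P.lang) →
      ({w | w ∈ family l ∧ w ∈ M.lang ∧ w ∉ P.lang}.ncard : ℝ) ≤ 2 ^ (-(l : ℝ) / 9) * 8 ^ l := by
    intro M l h
    have h1 : {w | w ∈ family l ∧ w ∈ M.lang ∧ w ∉ P.lang} = ∅ := by
      ext w
      simp only [Set.mem_ofPred_eq, Set.mem_empty_iff_false, iff_false]
      rintro ⟨a, b, c⟩
      exact c ((h _ a).1 b)
    rw [h1, Set.ncard_empty]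
    simp
    positivity
  have hrun : ∀ (M : HeadAut 2 Sym) (w : List Sym) (T : ℕ) (c : ℕ → M.Q × (Fin 2 → ℕ)),
      (ofHead M).IsAccRun w T c ↔ M.IsAccRun w T c := fun M w T c => Iff.rfl
  refine ⟨P.lang, ⟨P, P_det, rfl⟩, fun l hl => ⟨card_fam, many hl, ?_, fun x y z => ?_⟩,
    fun M l hl => ⟨main_bound M l hl, fun h => ?_⟩, fun f g hf hg => ⟨fun M => economical_bound M f g hf hg, ?_⟩,
    hrun, U, U_det, rfl, ?_⟩
  · rintro w ⟨x, y, z, rfl⟩
    exact W_length x y z
  · rw [W_mem_lang x y z hl, sg_eq]
  · exact exists_of_lt l hl _ (main_bound M l hl (herr M l h))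
  · intro M hM
    filter_upwards [economical_bound (ofHead M) f g hf hg, eventually_ge_atTop 1] with l h1 hl
    obtain ⟨w, h2, h3, h4⟩ := exists_of_lt l hl _ (h1 (herr (ofHead M) l fun w _ => by
      have h5 : (ofHead M).lang = M.lang := rfl
      rw [h5, hM]))
    refine ⟨w, h2, ?_, h4⟩
    obtain ⟨x, y, z, rfl⟩ := h3
    exact W_length x y z
  · rintro l hl w ⟨x, y, z, rfl⟩
    obtain ⟨h1, h2⟩ := U_spec x y z hl
    rw [W_mem_lang x y z hl]
    exact ⟨h1, h2⟩

end Pool.Agent.Results.MP_d0a708_lc.PositionPairs
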